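import Mathlib
import Pool.Agent.H695R3.PP.Stmts

set_option autoImplicit false

open scoped BigOperators ENNReal
open MeasureTheory

namespace Pool.Agent.H150R3.PP

open Pool.Agent.H695R3.PP

/-- a real square summable sequence as a vector -/
noncomputable def cx (h : ℤ → ℝ) (hs : Summable fun n => h n ^ 2) : lp (fun _ : ℤ => ℂ) 2 :=
  ⟨fun n => (h n : ℂ), by
    apply memℓp_gen
    have : (fun n : ℤ => ‖((h n : ℝ) : ℂ)‖ ^ (2 : ℝ≥0∞).toReal) = fun n => h n ^ 2 := by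
      funext n
      rw [Complex.norm_real, Real.norm_eq_abs, ENNReal.toReal_ofNat, Real.rpow_two, sq_abs]
    rw [this]
    exact hs⟩

theorem cx_apply (h : ℤ → ℝ) (hs : Summable fun n => h n ^ 2) (n : ℤ) : cx h hs n = (h n : ℂ) :=
  rfl

theorem cx_norm (h : ℤ → ℝ) (hs : Summable fun n => h n ^ 2) : ‖cx h hs‖ ^ 2 = ∑' n, h n ^ 2 := by
  have h1 := lp.norm_rpow_eq_tsum (p := 2) (by norm_num) (cx h hs)
  have : (fun n : ℤ => ‖cx h hs n‖ ^ (2 : ℝ≥0∞).toReal) = fun n => h n ^ 2 := by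
    funext n
    rw [cx_apply, Complex.norm_real, Real.norm_eq_abs, ENNReal.toReal_ofNat, Real.rpow_two, sq_abs]
  rw [this, ENNReal.toReal_ofNat, Real.rpow_two] at h1
  exact h1

theorem cx_norm_le (h : ℤ → ℝ) (hs : Summable fun n => h n ^ 2) (c : ℝ) (hc : 0 ≤ c)
    (hle : ∑' n, h n ^ 2 ≤ c ^ 2) : ‖cx h hs‖ ≤ c := by
  rw [← cx_norm h hs] at hle
  exact (pow_le_pow_iff_left₀ (norm_nonneg _) hc (by norm_num)).1 hle

theorem taskDelta : TaskChain → TaskCompl → TaskDelta := by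
  classical
  intro hChain hCompl V L a τ d hL hpos h1 h2 h3 h4 hs1 hs2 hlim1 hlim2
  rw [← SetLike.mem_coe, Submodule.topologicalClosure_coe, Metric.mem_closure_iff]
  intro ε hε
  -- choose `k`
  have e1 : ∀ᶠ k in Filter.atTop, (2 * (L k : ℝ) + 1) * a k ^ 2 < (ε / 2) ^ 2 :=
    hlim1.eventually_lt_const (by positivity)
  have e2 : ∀ᶠ k in Filter.atTop,
      (2 * (L k : ℝ) + 1) * ∑' j, τ (k + j) / d (k + j + 1) < ε / 8 :=
    hlim2.eventually_lt_const (by positivity)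
  obtain ⟨k0, hk0⟩ := Filter.eventually_atTop.1 ((h1.and h2).and (h3.and h4))
  obtain ⟨k, hk, hk1, hk2⟩ := ((Filter.eventually_ge_atTop k0).and (e1.and e2)).exists
  obtain ⟨e, ψ, hE, hδ, hPars⟩ := hCompl V (L k)
  set T : ℝ := ∑' j, τ (k + j) / d (k + j + 1) with hT
  have hT0 : 0 ≤ T := tsum_nonneg fun j => by
    have := hpos (k + j)
    have := hpos (k + j + 1)
    exact div_nonneg (hpos (k + j)).2.1.le (hpos (k + j + 1)).2.2.le
  have hgood : ∀ j, a k ≤ |ψ j 0| → ∃ (e' : ℝ) (φ : ℤ → ℝ), Summable (fun n => φ n ^ 2) ∧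
        (∀ n, φ (n + 1) + φ (n - 1) + V n * φ n = e' * φ n) ∧
        Summable (fun n => (ψ j n - φ n) ^ 2) ∧
        ∑' n, (ψ j n - φ n) ^ 2 ≤ (4 * T) ^ 2 := by
    intro j hj
    exact hChain V L a τ d k hL hpos (fun k' hk' => (hk0 k' (hk.trans hk')).1.1)
      (fun k' hk' => (hk0 k' (hk.trans hk')).1.2) (fun k' hk' => (hk0 k' (hk.trans hk')).2.1)
      (fun k' hk' => (hk0 k' (hk.trans hk')).2.2) hs1 hs2 (e j) (ψ j) (hE j) hj
  choose! e' φ hφ1 hφ2 hφ3 hφ4 using hgood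
  have hψ0 : ∀ j, |ψ j 0| ≤ 1 := by
    intro j
    have h5 : ψ j 0 ^ 2 ≤ nsq (-(L k : ℤ)) (L k) (ψ j) :=
      Finset.single_le_sum (f := fun n => ψ j n ^ 2) (fun _ _ => sq_nonneg _)
        (Finset.mem_Icc.2 ⟨by simp, by simp⟩)
    rw [(hE j).2.1] at h5
    exact (sq_le_one_iff_abs_le_one _).1 h5
  set Gd : Finset (Fin (2 * L k + 1)) := Finset.univ.filter fun j => a k ≤ |ψ j 0| with hGd
  -- the approximating vector
  let f : lp (fun _ : ℤ => ℂ) 2 := ∑ j : {j // a k ≤ |ψ j 0|},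
    ((ψ j.1 0 : ℝ) : ℂ) • cx (φ j.1) (hφ1 j.1 j.2)
  have hf : f ∈ EigSpan V := by
    refine Submodule.sum_mem _ fun j _ => Submodule.smul_mem _ _ (Submodule.subset_span ?_)
    refine ⟨e' j.1, fun n => ?_⟩
    rw [cx_apply, cx_apply, cx_apply]
    have h8 := congrArg (fun x : ℝ => (x : ℂ)) (hφ2 j.1 j.2 n)
    simp only [Complex.ofReal_add, Complex.ofReal_mul] at h8
    exact h8
  refine ⟨f, hf, ?_⟩
  -- the remainder
  let c : Fin (2 * L k + 1) → ℝ := fun j => if a k ≤ |ψ j 0| then 0 else ψ j 0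
  let g : ℤ → ℝ := fun n => ∑ j, c j * ψ j n
  have hg0 : ∀ n, n ∉ Finset.Icc (-(L k : ℤ)) (L k) → g n ^ 2 = 0 := by
    intro n hn
    have : g n = 0 := by
      refine Finset.sum_eq_zero fun j _ => ?_
      rw [(hE j).1 n, mul_zero]
      rw [Finset.mem_Icc] at hn
      by_contra hcon
      push Not at hcon
      exact hn ⟨hcon.1, hcon.2⟩
    rw [this]; norm_num
  have hgs : Summable fun n => g n ^ 2 := summable_of_ne_finset_zero (s := Finset.Icc (-(L k : ℤ)) (L k))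
    fun n hn => hg0 n hn
  have hgn : ∑' n, g n ^ 2 ≤ (ε / 2) ^ 2 := by
    rw [tsum_eq_sum (s := Finset.Icc (-(L k : ℤ)) (L k)) (fun n hn => hg0 n hn), hPars c]
    calc ∑ j, c j ^ 2 ≤ ∑ _j : Fin (2 * L k + 1), a k ^ 2 := by
          refine Finset.sum_le_sum fun j _ => ?_
          simp only [c]
          split_ifs with h
          · have := sq_nonneg (a k)
            simpa using this
          · push Not at h
            rw [← sq_abs]
            exact pow_le_pow_left₀ (abs_nonneg _) h.le 2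
      _ = (2 * (L k : ℝ) + 1) * a k ^ 2 := by
          rw [Finset.sum_const, Finset.card_univ, Fintype.card_fin, nsmul_eq_mul]
          push_cast; ring
      _ ≤ (ε / 2) ^ 2 := hk1.le
  have hgN : ‖cx g hgs‖ ≤ ε / 2 := cx_norm_le g hgs _ (by positivity) hgn
  have hid : lp.single 2 (0 : ℤ) (1 : ℂ) - f = cx g hgs + ∑ j : {j // a k ≤ |ψ j 0|},
      ((ψ j.1 0 : ℝ) : ℂ) • cx (fun n => ψ j.1 n - φ j.1 n) (hφ3 j.1 j.2) := by
    apply lp.ext
    funext n
    rw [lp.coeFn_sub, lp.coeFn_add, Pi.sub_apply, Pi.add_apply, lp.coeFn_sum, lp.coeFn_sum,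
      Finset.sum_apply, Finset.sum_apply, cx_apply]
    simp only [lp.coeFn_smul, Pi.smul_apply, cx_apply, smul_eq_mul]
    have hn := hδ n
    have hs : ∑ j, ψ j 0 * ψ j n = g n + ∑ j : {j // a k ≤ |ψ j 0|}, ψ j.1 0 * ψ j.1 n := by
      have h6 : ∑ j : {j // a k ≤ |ψ j 0|}, ψ j.1 0 * ψ j.1 n =
          ∑ j, if a k ≤ |ψ j 0| then ψ j 0 * ψ j n else 0 := by
        rw [← Finset.sum_filter]
        exact (Finset.sum_subtype _ (fun j => by simp) (fun j => ψ j 0 * ψ j n)).symm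
      rw [h6, ← Finset.sum_add_distrib]
      refine Finset.sum_congr rfl fun j _ => ?_
      simp only [c]
      split_ifs <;> ring
    have hsingle : (lp.single 2 (0 : ℤ) (1 : ℂ) : lp (fun _ : ℤ => ℂ) 2) n =
        ((if n = 0 then (1 : ℝ) else 0 : ℝ) : ℂ) := by
      rw [lp.single_apply]
      by_cases h0 : n = 0
      · subst h0; simp
      · simp [h0]
    rw [hsingle, hn, hs]
    push_cast
    simp only [mul_sub, Finset.sum_sub_distrib]
    ring
  rw [dist_eq_norm, hid]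
  have hsum : ‖∑ j : {j // a k ≤ |ψ j 0|},
      ((ψ j.1 0 : ℝ) : ℂ) • cx (fun n => ψ j.1 n - φ j.1 n) (hφ3 j.1 j.2)‖ ≤
      (2 * (L k : ℝ) + 1) * (4 * T) := by
    refine (norm_sum_le _ _).trans ?_
    calc ∑ j : {j // a k ≤ |ψ j 0|},
          ‖((ψ j.1 0 : ℝ) : ℂ) • cx (fun n => ψ j.1 n - φ j.1 n) (hφ3 j.1 j.2)‖
        ≤ ∑ _j : {j // a k ≤ |ψ j 0|}, (4 * T) := by
          refine Finset.sum_le_sum fun j _ => ?_
          rw [norm_smul, Complex.norm_real, Real.norm_eq_abs]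
          calc |ψ j.1 0| * ‖cx (fun n => ψ j.1 n - φ j.1 n) (hφ3 j.1 j.2)‖
              ≤ 1 * (4 * T) := mul_le_mul (hψ0 j.1)
                (cx_norm_le _ _ _ (by positivity) (hφ4 j.1 j.2)) (norm_nonneg _) zero_le_one
            _ = 4 * T := one_mul _
      _ = (Fintype.card {j // a k ≤ |ψ j 0|} : ℝ) * (4 * T) := by
          rw [Finset.sum_const, Finset.card_univ, nsmul_eq_mul]
      _ ≤ (2 * (L k : ℝ) + 1) * (4 * T) := by
          refine mul_le_mul_of_nonneg_right ?_ (by positivity)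
          have h7 := Fintype.card_subtype_le (fun j : Fin (2 * L k + 1) => a k ≤ |ψ j 0|)
          rw [Fintype.card_fin] at h7
          exact_mod_cast h7
  calc ‖cx g hgs + ∑ j : {j // a k ≤ |ψ j 0|},
      ((ψ j.1 0 : ℝ) : ℂ) • cx (fun n => ψ j.1 n - φ j.1 n) (hφ3 j.1 j.2)‖
      ≤ ε / 2 + (2 * (L k : ℝ) + 1) * (4 * T) := (norm_add_le _ _).trans (add_le_add hgN hsum)
    _ < ε := by linarith

end Pool.Agent.H150R3.PP
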